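import Pool.Agent.H520R2.LG.QGrow
import Pool.Agent.H178R2.LgNum

/-! LG task 18: the limit `B0 → ∞`. -/

open Complex Filter Topology Set MeasureTheory

namespace LG

/-- ideal value of `sm0`: the bin is `[β e^{-1/m}, β]`, `β = m w`, `w = (1-κ)/(2 B0)` -/
noncomputable def smid (w c : ℝ) (m : ℕ) : ℝ :=
  ∫ u in (m * w * Real.exp (-1 / m))..(m * w), Real.sin (Real.pi * c * u) / u

/-- the resonator weights -/
noncomputable def Fid (B0 n : ℕ) : ℝ := 12 - 11 * ((n : ℝ) / B0)

/-- Riemann sums as integrals of step functions -/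
theorem riem (a : ℕ → ℕ → ℝ) (g : ℝ → ℝ) (C : ℝ) (Z : Set ℝ) (hZ : Z.Countable)
    (hb : ∀ B n : ℕ, |(B : ℝ) * a B n| ≤ C) (hs : ∀ B n : ℕ, B < n → a B n = 0)
    (hlim : ∀ x : ℝ, 0 < x → x ∉ Z →
      Tendsto (fun B : ℕ => (B : ℝ) * a B ⌊x * B⌋₊) atTop (𝓝 (g x))) :
    Tendsto (fun B : ℕ => ∑ n ∈ Finset.range (B + 1), a B n) atTop (𝓝 (∫ x in (0 : ℝ)..2, g x)) := by
  -- step identity
  have step : ∀ B : ℕ, 1 ≤ B → ∑ n ∈ Finset.range (B + 1), a B n =
      ∫ x in (0 : ℝ)..2, (B : ℝ) * a B ⌊x * B⌋₊ := by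
    intro B hB
    have hB0 : (0 : ℝ) < B := by exact_mod_cast hB
    have e0 : ∑ n ∈ Finset.range (B + 1), a B n = ∑ n ∈ Finset.range (2 * B), a B n := by
      apply Finset.sum_subset
      · intro n hn; simp only [Finset.mem_range] at hn ⊢; omega
      · intro n _ hn2
        simp only [Finset.mem_range] at hn2
        exact hs B n (by omega)
    rw [e0]
    have piece : ∀ n : ℕ, IntervalIntegrable (fun x : ℝ => (B : ℝ) * a B ⌊x * B⌋₊) volume
        ((n : ℝ) / B) (((n + 1 : ℕ) : ℝ) / B) ∧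
        ∫ x in ((n : ℝ) / B)..(((n + 1 : ℕ) : ℝ) / B), (B : ℝ) * a B ⌊x * B⌋₊ = a B n := by
      intro n
      have hle : (n : ℝ) / B ≤ ((n + 1 : ℕ) : ℝ) / B := by
        apply div_le_div_of_nonneg_right _ hB0.le
        push_cast; linarith
      have hcon : EqOn (fun x : ℝ => (B : ℝ) * a B n) (fun x : ℝ => (B : ℝ) * a B ⌊x * B⌋₊)
          (Ioo ((n : ℝ) / B) (((n + 1 : ℕ) : ℝ) / B)) := by
        intro x hx
        have h1 : (n : ℝ) < x * B := by
          have := hx.1
          rwa [div_lt_iff₀ hB0] at this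
        have h2 : x * B < (n : ℝ) + 1 := by
          have := hx.2
          rw [lt_div_iff₀ hB0] at this
          push_cast at this
          exact this
        have h3 : ⌊x * B⌋₊ = n := by
          rw [Nat.floor_eq_iff (by linarith [Nat.cast_nonneg (α := ℝ) n])]
          exact ⟨h1.le, h2⟩
        simp only [h3]
      refine ⟨?_, ?_⟩
      · rw [intervalIntegrable_iff_integrableOn_Ioo_of_le hle]
        apply IntegrableOn.congr_fun _ hcon measurableSet_Ioo
        exact integrableOn_const (by simp) enorm_ne_top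
      · rw [intervalIntegral.integral_of_le hle, integral_Ioc_eq_integral_Ioo,
          ← setIntegral_congr_fun measurableSet_Ioo hcon, ← integral_Ioc_eq_integral_Ioo,
          ← intervalIntegral.integral_of_le hle, intervalIntegral.integral_const]
        push_cast
        rw [smul_eq_mul]
        field_simp
        ring
    have hsum := intervalIntegral.sum_integral_adjacent_intervals (μ := volume)
      (f := fun x : ℝ => (B : ℝ) * a B ⌊x * B⌋₊) (a := fun n : ℕ => (n : ℝ) / B) (n := 2 * B)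
      (fun k _ => (piece k).1)
    rw [Finset.sum_congr rfl (fun n _ => (piece n).2)] at hsum
    rw [hsum]
    congr 1
    · simp
    · push_cast
      field_simp
  have hC : ∀ᶠ B : ℕ in atTop, (∫ x in (0 : ℝ)..2, (B : ℝ) * a B ⌊x * B⌋₊) =
      ∑ n ∈ Finset.range (B + 1), a B n := by
    filter_upwards [eventually_ge_atTop 1] with B hB
    exact (step B hB).symm
  refine Tendsto.congr' hC ?_
  refine intervalIntegral.tendsto_integral_filter_of_dominated_convergence (fun _ => C) ?_ ?_ ?_ ?_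
  · refine Eventually.of_forall fun B => ?_
    have hm : Measurable (fun x : ℝ => (B : ℝ) * a B ⌊x * B⌋₊) :=
      (measurable_from_nat (f := fun n : ℕ => (B : ℝ) * a B n)).comp
        (Nat.measurable_floor.comp (measurable_id.mul_const _))
    exact hm.aestronglyMeasurable
  · refine Eventually.of_forall fun B => ?_
    refine Eventually.of_forall fun x _ => ?_
    exact hb B _
  · exact intervalIntegrable_const
  · have hZ0 : ∀ᵐ x : ℝ, x ∉ Z := hZ.ae_notMem volume
    filter_upwards [hZ0] with x hx hx2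
    apply hlim x _ hx
    rw [uIoc_of_le (by norm_num)] at hx2
    exact hx2.1

theorem floor_div_lim (x : ℝ) (hx : 0 ≤ x) :
    Tendsto (fun B : ℕ => (⌊x * B⌋₊ : ℝ) / B) atTop (𝓝 x) :=
  (tendsto_nat_floor_mul_div_atTop hx).comp tendsto_natCast_atTop_atTop

theorem floor_top (x : ℝ) (hx : 0 < x) : Tendsto (fun B : ℕ => ⌊x * B⌋₊) atTop atTop := by
  apply tendsto_nat_floor_atTop.comp
  exact Tendsto.const_mul_atTop hx tendsto_natCast_atTop_atTop

theorem qe_floor_lim (x : ℝ) (hx : 0 < x) :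
    Tendsto (fun B : ℕ => qe ⌊x * B⌋₊ / (B : ℝ) ^ 4) atTop (𝓝 (Real.exp (-5) / 24 * x ^ 4)) := by
  have h1 := (qe_lim.comp (floor_top x hx)).mul ((floor_div_lim x hx.le).pow 4)
  apply h1.congr'
  have h2 := (floor_top x hx).eventually_ge_atTop 1
  filter_upwards [h2, eventually_ge_atTop 1] with B hB hB1
  have hB0 : (B : ℝ) ≠ 0 := by positivity
  have hN0 : ((⌊x * B⌋₊ : ℕ) : ℝ) ≠ 0 := by
    have : 0 < ⌊x * (B : ℝ)⌋₊ := hB
    positivity
  simp only [Function.comp]
  field_simp

theorem Fid_lim (x : ℝ) (m : ℕ → ℕ) (hm : Tendsto (fun B : ℕ => (m B : ℝ) / B) atTop (𝓝 x)) :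
    Tendsto (fun B : ℕ => Fid B (m B)) atTop (𝓝 (12 - 11 * x)) := by
  unfold Fid
  exact (hm.const_mul 11).const_sub 12

theorem Fid_bd (B n : ℕ) (hn : n ≤ B) : 0 < Fid B n ∧ Fid B n ≤ 12 := by
  unfold Fid
  rcases Nat.eq_zero_or_pos B with h | h
  · subst h; simp
  · have h1 : (n : ℝ) / B ≤ 1 := by
      rw [div_le_one (by positivity)]
      exact_mod_cast hn
    have h2 : (0 : ℝ) ≤ (n : ℝ) / B := by positivity
    constructor <;> linarith

theorem qe_scaled (B n : ℕ) (hn : n ≤ B) : qe n / (B : ℝ) ^ 4 ≤ 10 * Real.exp 5 ∨ B = 0 := by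
  rcases Nat.eq_zero_or_pos B with h | h
  · exact Or.inr h
  · left
    have hB : (1 : ℝ) ≤ B := by exact_mod_cast h
    have hB4 : (1 : ℝ) ≤ (B : ℝ) ^ 4 := one_le_pow₀ hB
    have h1 := qe_le n
    have h2 : (n : ℝ) ^ 4 ≤ (B : ℝ) ^ 4 := by
      have : (n : ℝ) ≤ B := by exact_mod_cast hn
      gcongr
    rw [div_le_iff₀ (by positivity)]
    have he := Real.exp_pos 5
    nlinarith [mul_le_mul_of_nonneg_left h2 he.le, mul_le_mul_of_nonneg_left hB4 he.le]

/-- general term -/
noncomputable def at_ (B m n : ℕ) : ℝ :=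
  if n + m ≤ B then Fid B n * Fid B (n + m) * qe n / (B : ℝ) ^ 5 else 0

theorem at_nonneg (B m n : ℕ) : 0 ≤ at_ B m n := by
  unfold at_
  split_ifs with h
  · have h1 := Fid_bd B n (by omega)
    have h2 := Fid_bd B (n + m) h
    have h3 := qe_nonneg n
    have := h1.1
    have := h2.1
    positivity
  · exact le_rfl

theorem at_le (B m n : ℕ) : (B : ℝ) * at_ B m n ≤ 1440 * Real.exp 5 := by
  unfold at_
  have he := Real.exp_pos 5
  split_ifs with h
  · rcases Nat.eq_zero_or_pos B with hB | hB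
    · subst hB; simp; positivity
    · have hB0 : (B : ℝ) ≠ 0 := by positivity
      have h1 := Fid_bd B n (by omega)
      have h2 := Fid_bd B (n + m) h
      have h3 := qe_nonneg n
      have h4 := (qe_scaled B n (by omega)).resolve_right (by omega)
      have e : (B : ℝ) * (Fid B n * Fid B (n + m) * qe n / (B : ℝ) ^ 5) =
          Fid B n * Fid B (n + m) * (qe n / (B : ℝ) ^ 4) := by
        field_simp
      rw [e]
      have h5 : Fid B n * Fid B (n + m) ≤ 12 * 12 := by
        apply mul_le_mul h1.2 h2.2 h2.1.le (by norm_num)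
      have h6 : 0 ≤ qe n / (B : ℝ) ^ 4 := by positivity
      calc Fid B n * Fid B (n + m) * (qe n / (B : ℝ) ^ 4) ≤ (12 * 12) * (10 * Real.exp 5) := by
            apply mul_le_mul h5 h4 h6 (by norm_num)
        _ = _ := by ring
  · rw [mul_zero]; positivity

theorem SM_eq (B m : ℕ) (hm : m ≤ B) :
    SM B (Fid B) qe m / (B : ℝ) ^ 5 = ∑ n ∈ Finset.range (B + 1), at_ B m n := by
  unfold SM
  have e : ∑ n ∈ Finset.range (B + 1), at_ B m n = ∑ n ∈ Finset.range (B + 1 - m), at_ B m n := by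
    symm
    apply Finset.sum_subset
    · intro n hn; simp only [Finset.mem_range] at hn ⊢; omega
    · intro n _ hn2
      simp only [Finset.mem_range] at hn2
      unfold at_
      rw [if_neg (by omega)]
  rw [e, Finset.sum_div]
  apply Finset.sum_congr rfl
  intro n hn
  simp only [Finset.mem_range] at hn
  unfold at_
  rw [if_pos (by omega)]

theorem SM_nonneg (B m : ℕ) (hm : m ≤ B) : 0 ≤ SM B (Fid B) qe m / (B : ℝ) ^ 5 := by
  rw [SM_eq B m hm]
  exact Finset.sum_nonneg (fun n _ => at_nonneg B m n)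

theorem SM_le (B m : ℕ) (hm : m ≤ B) :
    SM B (Fid B) qe m / (B : ℝ) ^ 5 ≤ 2880 * Real.exp 5 := by
  have he := Real.exp_pos 5
  rcases Nat.eq_zero_or_pos B with hB | hB
  · subst hB; simp; positivity
  · rw [SM_eq B m hm]
    have hB0 : (0 : ℝ) < B := by exact_mod_cast hB
    have hB1 : (1 : ℝ) ≤ B := by exact_mod_cast hB
    have h1 : (B : ℝ) * ∑ n ∈ Finset.range (B + 1), at_ B m n ≤
        ((B : ℝ) + 1) * (1440 * Real.exp 5) := by
      rw [Finset.mul_sum]
      calc ∑ n ∈ Finset.range (B + 1), (B : ℝ) * at_ B m n ≤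
          ∑ n ∈ Finset.range (B + 1), (1440 * Real.exp 5) :=
            Finset.sum_le_sum (fun n _ => at_le B m n)
        _ = _ := by
            rw [Finset.sum_const, Finset.card_range, nsmul_eq_mul]
            push_cast; ring
    have h2 : ((B : ℝ) + 1) * (1440 * Real.exp 5) ≤ B * (2880 * Real.exp 5) := by
      nlinarith
    exact le_of_mul_le_mul_left (h1.trans h2) hB0

/-- inner limit -/
theorem SM_lim (v : ℝ) (m : ℕ → ℕ)
    (hm : Tendsto (fun B : ℕ => (m B : ℝ) / B) atTop (𝓝 v)) :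
    Tendsto (fun B : ℕ => ∑ n ∈ Finset.range (B + 1), at_ B (m B) n) atTop
      (𝓝 (∫ x in (0 : ℝ)..2, if x < 1 - v then
        (12 - 11 * x) * (12 - 11 * (x + v)) * (Real.exp (-5) / 24 * x ^ 4) else 0)) := by
  apply riem (fun B n => at_ B (m B) n) _ (1440 * Real.exp 5) {1 - v} (Set.countable_singleton _)
  · intro B n
    rw [abs_of_nonneg (mul_nonneg (Nat.cast_nonneg _) (at_nonneg _ _ _))]
    exact at_le B (m B) n
  · intro B n hn
    unfold at_
    rw [if_neg (by omega)]
  · intro x hx hxv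
    have hxv' : x ≠ 1 - v := hxv
    have hsum : Tendsto (fun B : ℕ => ((⌊x * B⌋₊ + m B : ℕ) : ℝ) / B) atTop (𝓝 (x + v)) := by
      have := (floor_div_lim x hx.le).add hm
      apply this.congr
      intro B
      push_cast
      ring
    rcases lt_or_gt_of_ne hxv' with h | h
    · rw [if_pos h]
      have h1 := Fid_lim x _ (floor_div_lim x hx.le)
      have h2 := Fid_lim (x + v) _ hsum
      have h3 := (h1.mul h2).mul (qe_floor_lim x hx)
      apply h3.congr'
      have h4 : ∀ᶠ B : ℕ in atTop, ((⌊x * B⌋₊ + m B : ℕ) : ℝ) / B < 1 :=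
        hsum.eventually_lt_const (by linarith)
      filter_upwards [h4, eventually_ge_atTop 1] with B hB hB1
      have hB0 : (0 : ℝ) < B := by exact_mod_cast hB1
      unfold at_
      rw [if_pos]
      · field_simp
      · rw [div_lt_one hB0] at hB
        have : ⌊x * (B : ℝ)⌋₊ + m B < B := by exact_mod_cast hB
        omega
    · rw [if_neg (by linarith)]
      have h4 : ∀ᶠ B : ℕ in atTop, 1 < ((⌊x * B⌋₊ + m B : ℕ) : ℝ) / B :=
        hsum.eventually_const_lt (by linarith)
      apply tendsto_const_nhds.congr'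
      filter_upwards [h4, eventually_ge_atTop 1] with B hB hB1
      have hB0 : (0 : ℝ) < B := by exact_mod_cast hB1
      unfold at_
      rw [if_neg, mul_zero]
      rw [one_lt_div hB0] at hB
      have : B < ⌊x * (B : ℝ)⌋₊ + m B := by exact_mod_cast hB
      omega

/-- the inner integral -/
theorem SM_int (v : ℝ) (hv : 0 ≤ v) (hv1 : v ≤ 1) :
    (∫ x in (0 : ℝ)..2, if x < 1 - v then
        (12 - 11 * x) * (12 - 11 * (x + v)) * (Real.exp (-5) / 24 * x ^ 4) else 0) =
      Real.exp (-5) / 24 * (12 / 5 * (1 - v) ^ 5 + 77 / 30 * (1 - v) ^ 6 - 121 / 42 * (1 - v) ^ 7) := by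
  have hint : ∀ a b : ℝ, 0 ≤ a → a ≤ b → b ≤ 1 - v → IntervalIntegrable (fun x : ℝ => if x < 1 - v then
        (12 - 11 * x) * (12 - 11 * (x + v)) * (Real.exp (-5) / 24 * x ^ 4) else 0) volume a b ∧
      ∫ x in a..b, (if x < 1 - v then
        (12 - 11 * x) * (12 - 11 * (x + v)) * (Real.exp (-5) / 24 * x ^ 4) else 0) =
      ∫ x in a..b, (12 - 11 * x) * (12 - 11 * (x + v)) * (Real.exp (-5) / 24 * x ^ 4) := by
    intro a b ha hab hb
    have hcon : EqOn (fun x : ℝ => (12 - 11 * x) * (12 - 11 * (x + v)) * (Real.exp (-5) / 24 * x ^ 4))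
        (fun x : ℝ => if x < 1 - v then
        (12 - 11 * x) * (12 - 11 * (x + v)) * (Real.exp (-5) / 24 * x ^ 4) else 0) (Ioo a b) := by
      intro x hx
      simp only
      rw [if_pos (by linarith [hx.2])]
    constructor
    · rw [intervalIntegrable_iff_integrableOn_Ioo_of_le hab]
      refine IntegrableOn.congr_fun ?_ hcon measurableSet_Ioo
      rw [← intervalIntegrable_iff_integrableOn_Ioo_of_le hab]
      apply Continuous.intervalIntegrable
      fun_prop
    · rw [intervalIntegral.integral_of_le hab, integral_Ioc_eq_integral_Ioo,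
        ← setIntegral_congr_fun measurableSet_Ioo hcon, ← integral_Ioc_eq_integral_Ioo,
        ← intervalIntegral.integral_of_le hab]
  have hint2 : IntervalIntegrable (fun x : ℝ => if x < 1 - v then
        (12 - 11 * x) * (12 - 11 * (x + v)) * (Real.exp (-5) / 24 * x ^ 4) else 0) volume (1 - v) 2 ∧
      ∫ x in (1 - v)..2, (if x < 1 - v then
        (12 - 11 * x) * (12 - 11 * (x + v)) * (Real.exp (-5) / 24 * x ^ 4) else 0) = 0 := by
    have hcon : EqOn (fun _ : ℝ => (0 : ℝ))
        (fun x : ℝ => if x < 1 - v then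
        (12 - 11 * x) * (12 - 11 * (x + v)) * (Real.exp (-5) / 24 * x ^ 4) else 0) (Ioo (1 - v) 2) := by
      intro x hx
      simp only
      rw [if_neg (by linarith [hx.1])]
    constructor
    · rw [intervalIntegrable_iff_integrableOn_Ioo_of_le (by linarith)]
      refine IntegrableOn.congr_fun ?_ hcon measurableSet_Ioo
      exact integrableOn_zero
    · rw [intervalIntegral.integral_of_le (by linarith), integral_Ioc_eq_integral_Ioo,
        ← setIntegral_congr_fun measurableSet_Ioo hcon]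
      simp
  obtain ⟨i1, i2⟩ := hint 0 (1 - v) le_rfl (by linarith) le_rfl
  rw [← intervalIntegral.integral_add_adjacent_intervals i1 hint2.1, i2, hint2.2, add_zero]
  have h1 : ∀ x ∈ Set.uIcc (0 : ℝ) (1 - v), HasDerivAt (fun x : ℝ => Real.exp (-5) / 24 *
      ((12 * (12 - 11 * v)) * x ^ 5 / 5 + (-11 * 12 - 11 * (12 - 11 * v)) * x ^ 6 / 6 +
        121 * x ^ 7 / 7))
      ((12 - 11 * x) * (12 - 11 * (x + v)) * (Real.exp (-5) / 24 * x ^ 4)) x := by
    intro x _
    have e : HasDerivAt (fun x : ℝ => Real.exp (-5) / 24 *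
      ((12 * (12 - 11 * v)) * x ^ 5 / 5 + (-11 * 12 - 11 * (12 - 11 * v)) * x ^ 6 / 6 +
        121 * x ^ 7 / 7)) (Real.exp (-5) / 24 *
      ((12 * (12 - 11 * v)) * ((5 : ℕ) * x ^ (5 - 1)) / 5 + (-11 * 12 - 11 * (12 - 11 * v)) * ((6 : ℕ) * x ^ (6 - 1)) / 6 +
        121 * ((7 : ℕ) * x ^ (7 - 1)) / 7)) x :=
      ((((((hasDerivAt_pow 5 x).const_mul _).div_const 5).add
        (((hasDerivAt_pow 6 x).const_mul _).div_const 6)).add
        (((hasDerivAt_pow 7 x).const_mul _).div_const 7)).const_mul _)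
    convert e using 1
    norm_num
    ring
  rw [intervalIntegral.integral_eq_sub_of_hasDerivAt h1 (by
    apply Continuous.intervalIntegrable
    fun_prop)]
  ring

/-! ### the factor `smid` -/

/-- `sin (πcu)/u`, continuous version -/
noncomputable def phi (c u : ℝ) : ℝ := Real.pi * c * Real.sinc (Real.pi * c * u)

theorem phi_eq (c u : ℝ) (hc : 0 < c) (hu : u ≠ 0) : Real.sin (Real.pi * c * u) / u = phi c u := by
  unfold phi
  have hpc : Real.pi * c ≠ 0 := by have := Real.pi_pos; positivity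
  rw [Real.sinc_of_ne_zero (mul_ne_zero hpc hu)]
  field_simp

theorem phi_cont (c : ℝ) : Continuous (phi c) := by
  unfold phi
  exact continuous_const.mul (Real.continuous_sinc.comp (continuous_const.mul continuous_id))

theorem phi_le (c u : ℝ) (hc : 0 < c) : |phi c u| ≤ Real.pi * c := by
  unfold phi
  have hpc : 0 < Real.pi * c := by have := Real.pi_pos; positivity
  rw [abs_mul, abs_of_pos hpc]
  calc Real.pi * c * |Real.sinc (Real.pi * c * u)| ≤ Real.pi * c * 1 := by
        apply mul_le_mul_of_nonneg_left (Real.abs_sinc_le_one _) hpc.le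
    _ = _ := mul_one _

theorem smid_eq (w c : ℝ) (m : ℕ) (hw : 0 < w) (hc : 0 < c) (hm : 1 ≤ m) :
    smid w c m = ∫ u in (m * w * Real.exp (-1 / m))..(m * w), phi c u := by
  unfold smid
  have hm0 : (0 : ℝ) < m := by exact_mod_cast hm
  have h1 : (0 : ℝ) < m * w * Real.exp (-1 / m) := by positivity
  have h2 : (m : ℝ) * w * Real.exp (-1 / m) ≤ m * w := by
    have : Real.exp (-1 / m) ≤ 1 := by
      rw [Real.exp_le_one_iff]
      apply div_nonpos_of_nonpos_of_nonneg (by norm_num) hm0.le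
    nlinarith [mul_pos hm0 hw]
  apply intervalIntegral.integral_congr
  intro u hu
  rw [uIcc_of_le h2] at hu
  simp only
  exact phi_eq c u hc (by linarith [hu.1])

theorem smid_le (w c : ℝ) (m : ℕ) (hw : 0 < w) (hc : 0 < c) (hm : 1 ≤ m) :
    |smid w c m| ≤ Real.pi * c * w := by
  rw [smid_eq w c m hw hc hm]
  have hm0 : (0 : ℝ) < m := by exact_mod_cast hm
  have h1 := intervalIntegral.norm_integral_le_of_norm_le_const (f := phi c)
    (a := m * w * Real.exp (-1 / m)) (b := m * w) (C := Real.pi * c)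
    (fun x _ => by rw [Real.norm_eq_abs]; exact phi_le c x hc)
  rw [Real.norm_eq_abs] at h1
  refine h1.trans ?_
  have hpc : 0 < Real.pi * c := by have := Real.pi_pos; positivity
  apply mul_le_mul_of_nonneg_left _ hpc.le
  have h2 : Real.exp (-1 / m) ≤ 1 := by
    rw [Real.exp_le_one_iff]
    apply div_nonpos_of_nonpos_of_nonneg (by norm_num) hm0.le
  have h3 : -1 / (m : ℝ) + 1 ≤ Real.exp (-1 / m) := Real.add_one_le_exp _
  have h4 : (m : ℝ) * w - m * w * Real.exp (-1 / m) ≤ w := by
    have h5 : (m : ℝ) * w * (-1 / (m : ℝ) + 1) ≤ m * w * Real.exp (-1 / m) := by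
      apply mul_le_mul_of_nonneg_left h3; positivity
    have h6 : (m : ℝ) * w * (-1 / (m : ℝ) + 1) = m * w - w := by field_simp; ring
    linarith
  have h7 : 0 ≤ (m : ℝ) * w - m * w * Real.exp (-1 / m) := by
    nlinarith [mul_pos hm0 hw]
  rw [abs_of_nonneg h7]
  exact h4

theorem exp_fac_lim : Tendsto (fun t : ℝ => t * (1 - Real.exp (-1 / t))) atTop (𝓝 1) := by
  have h := Real.hasDerivAt_exp 0
  rw [hasDerivAt_iff_tendsto_slope_zero] at h
  have h1 : Tendsto (fun t : ℝ => -1 / t) atTop (𝓝[≠] 0) := by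
    rw [tendsto_nhdsWithin_iff]
    refine ⟨?_, ?_⟩
    · have := (tendsto_inv_atTop_zero (𝕜 := ℝ)).const_mul (-1)
      rw [mul_zero] at this
      exact this.congr (fun t => by ring)
    · filter_upwards [eventually_gt_atTop 0] with t ht
      simp only [mem_compl_iff, mem_singleton_iff]
      exact div_ne_zero (by norm_num) ht.ne'
  have h2 := h.comp h1
  rw [Real.exp_zero] at h2
  apply h2.congr'
  filter_upwards [eventually_gt_atTop 0] with t ht
  simp only [Function.comp, zero_add, smul_eq_mul]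
  field_simp
  ring

/-- limit of the rescaled `smid` -/
theorem smid_lim (c κ v : ℝ) (hc : 0 < c) (hκ : 0 < κ) (hv : 0 < v) :
    Tendsto (fun B : ℕ => (B : ℝ) * smid (κ / B) c ⌊v * B⌋₊) atTop (𝓝 (κ * phi c (κ * v))) := by
  set m : ℕ → ℕ := fun B => ⌊v * B⌋₊ with hmdef
  have hm1 : ∀ᶠ B : ℕ in atTop, 1 ≤ m B := (floor_top v hv).eventually_ge_atTop 1
  set u1 : ℕ → ℝ := fun B => (m B : ℝ) * (κ / B) with hu1
  set u0 : ℕ → ℝ := fun B => (m B : ℝ) * (κ / B) * Real.exp (-1 / (m B : ℝ)) with hu0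
  have l1 : Tendsto u1 atTop (𝓝 (κ * v)) := by
    have := (floor_div_lim v hv.le).const_mul κ
    apply this.congr
    intro B
    simp only [hu1, hmdef]
    ring
  have lm : Tendsto (fun B : ℕ => (m B : ℝ)) atTop atTop :=
    tendsto_natCast_atTop_atTop.comp (floor_top v hv)
  have le : Tendsto (fun B : ℕ => Real.exp (-1 / (m B : ℝ))) atTop (𝓝 1) := by
    have h1 : Tendsto (fun B : ℕ => -1 / (m B : ℝ)) atTop (𝓝 0) := by
      have := (tendsto_inv_atTop_zero.comp lm).const_mul (-1)
      rw [mul_zero] at this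
      exact this.congr (fun t => by simp [Function.comp]; ring)
    have := (Real.continuous_exp.tendsto 0).comp h1
    rwa [Real.exp_zero] at this
  have l0 : Tendsto u0 atTop (𝓝 (κ * v)) := by
    have := l1.mul le
    rwa [mul_one] at this
  have ld : Tendsto (fun B : ℕ => (B : ℝ) * (u1 B - u0 B)) atTop (𝓝 κ) := by
    have h1 := (exp_fac_lim.comp lm).const_mul κ
    rw [mul_one] at h1
    apply h1.congr'
    filter_upwards [eventually_ge_atTop 1] with B hB
    have hB0 : (B : ℝ) ≠ 0 := by positivity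
    simp only [Function.comp, hu1, hu0]
    field_simp
  have hle : ∀ B, u0 B ≤ u1 B := by
    intro B
    simp only [hu1, hu0]
    have h1 : Real.exp (-1 / (m B : ℝ)) ≤ 1 := by
      rw [Real.exp_le_one_iff]
      exact div_nonpos_of_nonpos_of_nonneg (by norm_num) (Nat.cast_nonneg _)
    have h2 : 0 ≤ (m B : ℝ) * (κ / B) := by positivity
    nlinarith
  -- reduction: `B * (smid - (u1 - u0) φ(κ v)) → 0`
  have key : Tendsto (fun B : ℕ => (B : ℝ) * (smid (κ / B) c (m B) - (u1 B - u0 B) * phi c (κ * v)))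
      atTop (𝓝 0) := by
    rw [Metric.tendsto_atTop]
    intro ε hε
    have hcont := (phi_cont c).continuousAt (x := κ * v)
    rw [Metric.continuousAt_iff] at hcont
    obtain ⟨δ, hδ, hδ2⟩ := hcont (ε / (2 * (κ + 1))) (by positivity)
    have e1 : ∀ᶠ B : ℕ in atTop, |u1 B - κ * v| < δ := by
      have := (Metric.tendsto_nhds.1 l1) δ hδ
      simpa [Real.dist_eq] using this
    have e0 : ∀ᶠ B : ℕ in atTop, |u0 B - κ * v| < δ := by
      have := (Metric.tendsto_nhds.1 l0) δ hδ
      simpa [Real.dist_eq] using this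
    have ed : ∀ᶠ B : ℕ in atTop, (B : ℝ) * (u1 B - u0 B) < κ + 1 :=
      ld.eventually_lt_const (by linarith)
    obtain ⟨N, hN⟩ := eventually_atTop.1 ((e1.and e0).and (ed.and (hm1.and (eventually_ge_atTop 1))))
    refine ⟨N, fun B hB => ?_⟩
    obtain ⟨⟨h1, h0⟩, hd, hm, hB1⟩ := hN B hB
    have hB0 : (0 : ℝ) < B := by exact_mod_cast hB1
    rw [Real.dist_eq, sub_zero, abs_mul, abs_of_pos hB0]
    rw [smid_eq (κ / B) c (m B) (by positivity) hc hm]
    have hc1 : (u1 B - u0 B) * phi c (κ * v) = ∫ _ in (u0 B)..(u1 B), phi c (κ * v) := by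
      rw [intervalIntegral.integral_const, smul_eq_mul]
    have hu : (∫ u in ((m B : ℝ) * (κ / B) * Real.exp (-1 / (m B : ℝ)))..((m B : ℝ) * (κ / B)), phi c u) =
        ∫ u in (u0 B)..(u1 B), phi c u := rfl
    rw [hu, hc1, ← intervalIntegral.integral_sub ((phi_cont c).intervalIntegrable _ _)
      (continuous_const.intervalIntegrable _ _)]
    have hb := intervalIntegral.norm_integral_le_of_norm_le_const
      (f := fun u => phi c u - phi c (κ * v)) (a := u0 B) (b := u1 B) (C := ε / (2 * (κ + 1)))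
      (fun x hx => by
        rw [uIoc_of_le (hle B)] at hx
        have : dist x (κ * v) < δ := by
          rw [Real.dist_eq, abs_lt]
          rw [abs_lt] at h1 h0
          constructor
          · linarith [hx.1]
          · linarith [hx.2]
        have := hδ2 this
        rw [Real.dist_eq] at this
        rw [Real.norm_eq_abs]
        exact this.le)
    rw [Real.norm_eq_abs, abs_of_nonneg (sub_nonneg.2 (hle B))] at hb
    calc (B : ℝ) * |∫ x in (u0 B)..(u1 B), phi c x - phi c (κ * v)|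
        ≤ B * (ε / (2 * (κ + 1)) * (u1 B - u0 B)) := mul_le_mul_of_nonneg_left hb hB0.le
      _ = ε / (2 * (κ + 1)) * (B * (u1 B - u0 B)) := by ring
      _ ≤ ε / (2 * (κ + 1)) * (κ + 1) := mul_le_mul_of_nonneg_left hd.le (by positivity)
      _ < ε := by field_simp; linarith
  have h2 := key.add (ld.mul_const (phi c (κ * v)))
  rw [zero_add] at h2
  apply h2.congr
  intro B
  ring

/-! ### assembly -/

theorem SF_eq (B : ℕ) : SF B (Fid B) qe / (B : ℝ) ^ 5 = ∑ n ∈ Finset.range (B + 1), at_ B 0 n := by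
  unfold SF
  rw [Finset.sum_div]
  apply Finset.sum_congr rfl
  intro n hn
  simp only [Finset.mem_range] at hn
  unfold at_
  rw [if_pos (by omega), add_zero]
  ring

theorem SF_lim : Tendsto (fun B : ℕ => SF B (Fid B) qe / (B : ℝ) ^ 5) atTop
    (𝓝 (Real.exp (-5) / 24 * (73 / 35))) := by
  have h := SM_lim 0 (fun _ => 0) (by simp)
  rw [SM_int 0 le_rfl (by norm_num)] at h
  have e : Real.exp (-5) / 24 * (12 / 5 * (1 - 0) ^ 5 + 77 / 30 * (1 - 0) ^ 6 - 121 / 42 * (1 - 0) ^ 7)
      = Real.exp (-5) / 24 * (73 / 35) := by ring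
  rw [e] at h
  exact h.congr (fun B => (SF_eq B).symm)

theorem SF_pos (B : ℕ) : 0 < SF B (Fid B) qe := by
  unfold SF
  rw [Finset.sum_range_succ']
  have h1 : 0 < Fid B 0 ^ 2 * qe 0 := by
    rw [qe_zero]
    have := (Fid_bd B 0 (Nat.zero_le _)).1
    positivity
  have h2 : 0 ≤ ∑ k ∈ Finset.range B, Fid B (k + 1) ^ 2 * qe (k + 1) := by
    apply Finset.sum_nonneg
    intro k _
    have := qe_nonneg (k + 1)
    positivity
  linarith

/-- outer sum -/
noncomputable def bt (c κ : ℝ) (B m : ℕ) : ℝ :=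
  if 2 ≤ m ∧ m ≤ B then smid (κ / B) c m * (SM B (Fid B) qe m / (B : ℝ) ^ 5) else 0

theorem outer_lim (c κ : ℝ) (hc : 0 < c) (hκ : 0 < κ) :
    Tendsto (fun B : ℕ => ∑ m ∈ Finset.range (B + 1), bt c κ B m) atTop
      (𝓝 (∫ v in (0 : ℝ)..2, if v < 1 then κ * phi c (κ * v) * (Real.exp (-5) / 24 *
        (12 / 5 * (1 - v) ^ 5 + 77 / 30 * (1 - v) ^ 6 - 121 / 42 * (1 - v) ^ 7)) else 0)) := by
  have hpc : 0 < Real.pi * c := by have := Real.pi_pos; positivity
  have he := Real.exp_pos 5
  apply riem (bt c κ) _ (Real.pi * c * κ * (2880 * Real.exp 5)) {1} (Set.countable_singleton _)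
  · intro B m
    unfold bt
    split_ifs with h
    · have hB : 0 < B := by omega
      have hB0 : (0 : ℝ) < B := by exact_mod_cast hB
      have h1 := smid_le (κ / B) c m (by positivity) hc (by omega)
      have h2 := SM_nonneg B m h.2
      have h3 := SM_le B m h.2
      rw [abs_mul, abs_mul, abs_of_pos hB0, abs_of_nonneg h2]
      calc (B : ℝ) * (|smid (κ / B) c m| * (SM B (Fid B) qe m / (B : ℝ) ^ 5))
          ≤ B * ((Real.pi * c * (κ / B)) * (2880 * Real.exp 5)) := by
            apply mul_le_mul_of_nonneg_left _ hB0.le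
            apply mul_le_mul h1 h3 h2 (by positivity)
        _ = _ := by field_simp
    · rw [mul_zero, abs_zero]; positivity
  · intro B m hm
    unfold bt
    rw [if_neg (by omega)]
  · intro v hv hv1
    have hv1' : v ≠ 1 := hv1
    have hm := floor_div_lim v hv.le
    rcases lt_or_gt_of_ne hv1' with h | h
    · rw [if_pos h]
      have l1 := smid_lim c κ v hc hκ hv
      have l2 := SM_lim v (fun B => ⌊v * B⌋₊) hm
      rw [SM_int v hv.le h.le] at l2
      apply (l1.mul l2).congr'
      have h4 : ∀ᶠ B : ℕ in atTop, ((⌊v * B⌋₊ : ℕ) : ℝ) / B < 1 := hm.eventually_lt_const h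
      filter_upwards [h4, eventually_ge_atTop 1, (floor_top v hv).eventually_ge_atTop 2] with B hB hB1 h2
      have hB0 : (0 : ℝ) < B := by exact_mod_cast hB1
      rw [div_lt_one hB0] at hB
      have h5 : ⌊v * (B : ℝ)⌋₊ < B := by exact_mod_cast hB
      unfold bt
      rw [if_pos ⟨h2, h5.le⟩, SM_eq B _ h5.le]
      ring
    · rw [if_neg (by linarith)]
      have h4 : ∀ᶠ B : ℕ in atTop, 1 < ((⌊v * B⌋₊ : ℕ) : ℝ) / B := hm.eventually_const_lt h
      apply tendsto_const_nhds.congr'
      filter_upwards [h4, eventually_ge_atTop 1] with B hB hB1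
      have hB0 : (0 : ℝ) < B := by exact_mod_cast hB1
      rw [one_lt_div hB0] at hB
      have : B < ⌊v * (B : ℝ)⌋₊ := by exact_mod_cast hB
      unfold bt
      rw [if_neg (by omega), mul_zero]

theorem outer_int (c κ : ℝ) :
    (∫ v in (0 : ℝ)..2, if v < 1 then κ * phi c (κ * v) * (Real.exp (-5) / 24 *
        (12 / 5 * (1 - v) ^ 5 + 77 / 30 * (1 - v) ^ 6 - 121 / 42 * (1 - v) ^ 7)) else 0) =
    Real.exp (-5) / 24 * ∫ v in (0 : ℝ)..1, Real.pi * c * κ * Real.sinc (Real.pi * c * κ * v) *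
        (12 / 5 * (1 - v) ^ 5 + 77 / 30 * (1 - v) ^ 6 - 121 / 42 * (1 - v) ^ 7) := by
  set f : ℝ → ℝ := fun v => κ * phi c (κ * v) * (Real.exp (-5) / 24 *
        (12 / 5 * (1 - v) ^ 5 + 77 / 30 * (1 - v) ^ 6 - 121 / 42 * (1 - v) ^ 7)) with hf
  have hfc : Continuous f := by
    have := phi_cont c
    simp only [hf]
    fun_prop
  have h1 : EqOn f (fun v => if v < 1 then f v else 0) (Ioo 0 1) := by
    intro x hx
    simp only
    rw [if_pos hx.2]
  have h2 : EqOn (fun _ : ℝ => (0 : ℝ)) (fun v => if v < 1 then f v else 0) (Ioo 1 2) := by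
    intro x hx
    simp only
    rw [if_neg (by linarith [hx.1])]
  have i1 : IntervalIntegrable (fun v => if v < 1 then f v else 0) volume 0 1 := by
    rw [intervalIntegrable_iff_integrableOn_Ioo_of_le (by norm_num)]
    refine IntegrableOn.congr_fun ?_ h1 measurableSet_Ioo
    rw [← intervalIntegrable_iff_integrableOn_Ioo_of_le (by norm_num)]
    exact hfc.intervalIntegrable _ _
  have i2 : IntervalIntegrable (fun v => if v < 1 then f v else 0) volume 1 2 := by
    rw [intervalIntegrable_iff_integrableOn_Ioo_of_le (by norm_num)]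
    refine IntegrableOn.congr_fun ?_ h2 measurableSet_Ioo
    exact integrableOn_zero
  rw [← intervalIntegral.integral_add_adjacent_intervals i1 i2]
  have e1 : ∫ x in (0 : ℝ)..1, (if x < 1 then f x else 0) = ∫ x in (0 : ℝ)..1, f x := by
    rw [intervalIntegral.integral_of_le (by norm_num), integral_Ioc_eq_integral_Ioo,
        ← setIntegral_congr_fun measurableSet_Ioo h1, ← integral_Ioc_eq_integral_Ioo,
        ← intervalIntegral.integral_of_le (by norm_num)]
  have e2 : ∫ x in (1 : ℝ)..2, (if x < 1 then f x else 0) = 0 := by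
    rw [intervalIntegral.integral_of_le (by norm_num), integral_Ioc_eq_integral_Ioo,
        ← setIntegral_congr_fun measurableSet_Ioo h2]
    simp
  rw [e1, e2, add_zero, ← intervalIntegral.integral_const_mul]
  apply intervalIntegral.integral_congr
  intro v _
  simp only [hf, phi]
  rw [show Real.pi * c * (κ * v) = Real.pi * c * κ * v by ring]
  ring

/-- LG task 18 from the numerical inequality (task 16) -/
theorem IDEAL_of (NUM : (257 / 100 : ℝ) * (73 / 35) < 4 * Real.sqrt 5 / Real.pi *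
    ∫ v in (0 : ℝ)..1, Real.pi * (357 / 200) * (999 / 1000) *
      Real.sinc (Real.pi * (357 / 200) * (999 / 1000) * v) *
      (12 / 5 * (1 - v) ^ 5 + 77 / 30 * (1 - v) ^ 6 - 121 / 42 * (1 - v) ^ 7)) :
    ∃ B0 : ℕ, 10 ≤ B0 ∧ ∀ q : ℕ → ℝ, IsQ B0 tid q → 0 < SF B0 (Fid B0) q ∧
    (357 / 100) * SF B0 (Fid B0) q < SF B0 (Fid B0) q + 4 * Real.sqrt 5 / Real.pi *
      ∑ m ∈ Finset.Icc 2 B0, smid ((999 / 1000) / (2 * B0)) (357 / 100) m * SM B0 (Fid B0) q m := by
  set K : ℝ := 4 * Real.sqrt 5 / Real.pi with hK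
  have l1 := SF_lim
  have l2 := outer_lim (357 / 100) ((999 / 1000) / 2) (by norm_num) (by norm_num)
  rw [outer_int] at l2
  rw [show Real.pi * (357 / 100) * (999 / 1000 / 2) = Real.pi * (357 / 200) * (999 / 1000) by ring] at l2
  set I : ℝ := ∫ v in (0 : ℝ)..1, Real.pi * (357 / 200) * (999 / 1000) *
      Real.sinc (Real.pi * (357 / 200) * (999 / 1000) * v) *
      (12 / 5 * (1 - v) ^ 5 + 77 / 30 * (1 - v) ^ 6 - 121 / 42 * (1 - v) ^ 7) with hI
  have hE := Real.exp_pos (-5)
  have l3 := l1.const_mul (257 / 100)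
  have l4 := l2.const_mul K
  have hlt : 257 / 100 * (Real.exp (-5) / 24 * (73 / 35)) < K * (Real.exp (-5) / 24 * I) := by
    have : 257 / 100 * (Real.exp (-5) / 24 * (73 / 35)) = Real.exp (-5) / 24 * ((257 / 100) * (73 / 35)) := by
      ring
    rw [this]
    have h2 : K * (Real.exp (-5) / 24 * I) = Real.exp (-5) / 24 * (K * I) := by ring
    rw [h2]
    exact mul_lt_mul_of_pos_left NUM (by positivity)
  have hev := l3.eventually_lt l4 hlt
  obtain ⟨B, hB, hB10⟩ := (hev.and (eventually_ge_atTop 10)).exists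
  refine ⟨B, hB10, fun q hq => ?_⟩
  have hB0 : (0 : ℝ) < B := by
    have : 0 < B := by omega
    exact_mod_cast this
  have eSF : SF B (Fid B) q = SF B (Fid B) qe := by
    unfold SF
    apply Finset.sum_congr rfl
    intro n hn
    simp only [Finset.mem_range] at hn
    rw [q_eq hq n (by omega)]
  have eSM : ∀ m, SM B (Fid B) q m = SM B (Fid B) qe m := by
    intro m
    unfold SM
    apply Finset.sum_congr rfl
    intro n hn
    simp only [Finset.mem_range] at hn
    rw [q_eq hq n (by omega)]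
  rw [eSF]
  refine ⟨SF_pos B, ?_⟩
  have esum : ∑ m ∈ Finset.range (B + 1), bt (357 / 100) (999 / 1000 / 2) B m =
      (∑ m ∈ Finset.Icc 2 B, smid ((999 / 1000) / (2 * B)) (357 / 100) m * SM B (Fid B) q m) /
        (B : ℝ) ^ 5 := by
    rw [Finset.sum_div]
    symm
    have hsub : Finset.Icc 2 B ⊆ Finset.range (B + 1) := by
      intro m hm
      simp only [Finset.mem_Icc] at hm
      simp only [Finset.mem_range]
      omega
    rw [← Finset.sum_subset hsub (f := fun m => bt (357 / 100) (999 / 1000 / 2) B m)]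
    · apply Finset.sum_congr rfl
      intro m hm
      simp only [Finset.mem_Icc] at hm
      unfold bt
      rw [if_pos hm, eSM, mul_div_assoc]
      congr 2
      exact (div_div (999 / 1000 : ℝ) 2 (B : ℝ)).symm
    · intro m _ hm2
      simp only [Finset.mem_Icc] at hm2
      unfold bt
      rw [if_neg hm2]
  rw [esum] at hB
  have h5 : (0 : ℝ) < (B : ℝ) ^ 5 := by positivity
  have hB' : (257 / 100 * SF B (Fid B) qe) / (B : ℝ) ^ 5 <
      (K * ∑ m ∈ Finset.Icc 2 B, smid ((999 / 1000) / (2 * B)) (357 / 100) m * SM B (Fid B) q m) /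
        (B : ℝ) ^ 5 := by
    rw [mul_div_assoc, mul_div_assoc]
    exact hB
  rw [div_lt_div_iff_of_pos_right h5] at hB'
  linarith

/-- LG task 18 -/
theorem IDEAL : ∃ B0 : ℕ, 10 ≤ B0 ∧ ∀ q : ℕ → ℝ, IsQ B0 tid q → 0 < SF B0 (Fid B0) q ∧
    (357 / 100) * SF B0 (Fid B0) q < SF B0 (Fid B0) q + 4 * Real.sqrt 5 / Real.pi *
      ∑ m ∈ Finset.Icc 2 B0, smid ((999 / 1000) / (2 * B0)) (357 / 100) m * SM B0 (Fid B0) q m :=
  IDEAL_of NUM

end LG
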