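import Pool.Agent.H297R2.LG.Defs

/-! LG task 17: growth of the ideal sequence `e^{-5z}(1-z)^{-5}`. -/

open Complex Filter Topology Set MeasureTheory

namespace LG

/-- the ideal sequence: `t_1 = 0`, `t_m = 5` for `m ≥ 2` -/
def tid (m : ℕ) : ℝ := if 2 ≤ m then 5 else 0

theorem tid_sum (q : ℕ → ℝ) (n : ℕ) :
    ∑ m ∈ Finset.Icc 1 (n + 1), tid m * q (n + 1 - m) = 5 * ∑ i ∈ Finset.range n, q i := by
  have h1 : ∑ m ∈ Finset.Icc 1 (n + 1), tid m * q (n + 1 - m)
      = ∑ k ∈ Finset.range (n + 1), tid (k + 1) * q (n + 1 - (k + 1)) := by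
    rw [Finset.sum_bij' (fun m _ => m - 1) (fun k _ => k + 1)]
    · intro a ha; simp only [Finset.mem_Icc] at ha; simp only [Finset.mem_range]; omega
    · intro a ha; simp only [Finset.mem_range] at ha; simp only [Finset.mem_Icc]; omega
    · intro a ha; simp only [Finset.mem_Icc] at ha; omega
    · intro a ha; omega
    · intro a ha; simp only [Finset.mem_Icc] at ha
      rw [show a - 1 + 1 = a by omega]
  have h2 : ∑ k ∈ Finset.range (n + 1), tid (k + 1) * q (n + 1 - (k + 1))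
      = ∑ k ∈ Finset.range (n + 1), (fun i => tid (n + 1 - i) * q i) (n + 1 - 1 - k) := by
    apply Finset.sum_congr rfl
    intro k hk
    simp only [Finset.mem_range] at hk
    simp only
    have e1 : n + 1 - (k + 1) = n + 1 - 1 - k := by omega
    have e2 : n + 1 - (n + 1 - 1 - k) = k + 1 := by omega
    rw [e2, e1]
  rw [h1, h2, Finset.sum_range_reflect (fun i => tid (n + 1 - i) * q i) (n + 1),
    Finset.sum_range_succ, Finset.mul_sum]
  have h3 : tid (n + 1 - n) = 0 := by simp [tid]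
  rw [h3, zero_mul, add_zero]
  apply Finset.sum_congr rfl
  intro i hi
  simp only [Finset.mem_range] at hi
  have : tid (n + 1 - i) = 5 := by
    unfold tid
    rw [if_pos (by omega)]
  rw [this]

theorem q_one {N : ℕ} {q : ℕ → ℝ} (hq : IsQ N tid q) (hN : 1 ≤ N) : q 1 = 0 := by
  have := hq.2 1 le_rfl hN
  rw [tid_sum q 0] at this
  simpa using this

theorem q_rec {N : ℕ} {q : ℕ → ℝ} (hq : IsQ N tid q) (n : ℕ) (hn : n + 2 ≤ N) :
    ((n : ℝ) + 2) * q (n + 2) = ((n : ℝ) + 1) * q (n + 1) + 5 * q n := by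
  have h1 := hq.2 (n + 2) (by omega) hn
  have h2 := hq.2 (n + 1) (by omega) (by omega)
  rw [show n + 2 = (n + 1) + 1 by ring, tid_sum q (n + 1), Finset.sum_range_succ] at h1
  rw [tid_sum q n] at h2
  push_cast at h1 h2
  have h3 : q (n + 1 + 1) = q (n + 2) := by congr 1
  rw [h3] at h1
  nlinarith [h1, h2]

/-- the explicit solution -/
noncomputable def qe (n : ℕ) : ℝ :=
  ∑ j ∈ Finset.range (n + 1), (-5) ^ j / (j.factorial : ℝ) * ((n - j + 4).choose 4 : ℝ)

noncomputable def Ee : PowerSeries ℝ := PowerSeries.mk (fun j => (-5 : ℝ) ^ j / (j.factorial : ℝ))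

noncomputable def Ge : PowerSeries ℝ := PowerSeries.mk (fun n => ((n + 4).choose 4 : ℝ))

theorem coeff_EG (n : ℕ) : PowerSeries.coeff n (Ee * Ge) = qe n := by
  rw [PowerSeries.coeff_mul, Finset.Nat.sum_antidiagonal_eq_sum_range_succ_mk]
  unfold qe Ee Ge
  apply Finset.sum_congr rfl
  intro j hj
  simp [PowerSeries.coeff_mk]

theorem dE : PowerSeries.derivative ℝ Ee = (-5 : ℝ) • Ee := by
  ext n
  rw [PowerSeries.coeff_derivative, PowerSeries.coeff_smul]
  unfold Ee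
  simp only [PowerSeries.coeff_mk]
  rw [Nat.factorial_succ, pow_succ]
  have h1 : ((n : ℝ) + 1) ≠ 0 := by positivity
  have h2 : (n.factorial : ℝ) ≠ 0 := by positivity
  push_cast
  rw [smul_eq_mul]
  field_simp

theorem dG : PowerSeries.derivative ℝ Ge = PowerSeries.X * PowerSeries.derivative ℝ Ge + (5 : ℝ) • Ge := by
  ext n
  have key : ∀ n : ℕ, ((n + 4).choose 4 : ℝ) * (n + 5) = ((n + 5).choose 4 : ℝ) * (n + 1) := by
    intro n
    have := Nat.choose_mul_succ_eq (n + 4) 4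
    rw [show n + 4 + 1 - 4 = n + 1 by omega] at this
    have h := congrArg (Nat.cast : ℕ → ℝ) this
    push_cast at h
    have h5 : (n + 4 + 1).choose 4 = (n + 5).choose 4 := rfl
    rw [h5] at h
    linarith
  rw [map_add, PowerSeries.coeff_smul, PowerSeries.coeff_derivative]
  unfold Ge
  simp only [PowerSeries.coeff_mk]
  rcases n with _ | n
  · simp [PowerSeries.coeff_zero_X_mul]
  · rw [PowerSeries.coeff_succ_X_mul, PowerSeries.coeff_derivative]
    simp only [PowerSeries.coeff_mk]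
    have h1 := key (n + 1)
    push_cast at h1 ⊢
    rw [show n + 1 + 1 + 4 = n + 1 + 5 by ring]
    simp only [smul_eq_mul]
    linarith

theorem qe_rec (n : ℕ) : ((n : ℝ) + 2) * qe (n + 2) = ((n : ℝ) + 1) * qe (n + 1) + 5 * qe n := by
  have h : PowerSeries.derivative ℝ (Ee * Ge) =
      PowerSeries.X * PowerSeries.derivative ℝ (Ee * Ge) + PowerSeries.X * ((5 : ℝ) • (Ee * Ge)) := by
    rw [Derivation.leibniz, smul_eq_mul, smul_eq_mul, dE]
    have hG := dG
    set D := PowerSeries.derivative ℝ Ge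
    have e1 : Ge * ((-5 : ℝ) • Ee) = (-5 : ℝ) • (Ee * Ge) := by
      rw [mul_smul_comm, mul_comm]
    have e2 : Ee * D = PowerSeries.X * (Ee * D) + (5 : ℝ) • (Ee * Ge) := by
      conv_lhs => rw [hG]
      rw [mul_add, mul_smul_comm]
      ring
    rw [e1]
    conv_lhs => rw [e2]
    rw [mul_add]
    have e3 : PowerSeries.X * ((-5 : ℝ) • (Ee * Ge)) + PowerSeries.X * ((5 : ℝ) • (Ee * Ge)) = 0 := by
      rw [← mul_add, ← add_smul]; simp
    have e4 : (5 : ℝ) • (Ee * Ge) + (-5 : ℝ) • (Ee * Ge) = 0 := by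
      rw [← add_smul]; simp
    rw [add_assoc, e4, add_assoc, e3]
  have h2 := congrArg (PowerSeries.coeff (n + 1)) h
  rw [map_add, PowerSeries.coeff_succ_X_mul, PowerSeries.coeff_succ_X_mul,
    PowerSeries.coeff_derivative, PowerSeries.coeff_derivative, PowerSeries.coeff_smul,
    coeff_EG, coeff_EG, coeff_EG, smul_eq_mul] at h2
  push_cast at h2
  have h3 : qe (n + 1 + 1) = qe (n + 2) := rfl
  rw [h3] at h2
  linarith

theorem qe_zero : qe 0 = 1 := by simp [qe]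

theorem qe_one : qe 1 = 0 := by
  simp [qe, Finset.sum_range_succ]

theorem q_eq {N : ℕ} {q : ℕ → ℝ} (hq : IsQ N tid q) (n : ℕ) (hn : n ≤ N) : q n = qe n := by
  induction n using Nat.strong_induction_on with
  | _ n ih =>
    rcases n with _ | _ | n
    · rw [qe_zero]; exact hq.1
    · rw [qe_one]; exact q_one hq hn
    · have h1 := q_rec hq n hn
      have h2 := qe_rec n
      rw [ih (n + 1) (by omega) (by omega), ih n (by omega) (by omega), ← h2] at h1
      exact mul_left_cancel₀ (by positivity) h1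

theorem qe_nonneg (n : ℕ) : 0 ≤ qe n := by
  induction n using Nat.strong_induction_on with
  | _ n ih =>
    rcases n with _ | _ | n
    · rw [qe_zero]; norm_num
    · rw [qe_one]
    · have h2 := qe_rec n
      have h3 := ih (n + 1) (by omega)
      have h4 := ih n (by omega)
      have : 0 ≤ ((n : ℝ) + 2) * qe (n + 2) := by rw [h2]; positivity
      exact nonneg_of_mul_nonneg_right this (by positivity)

theorem choose_form (n : ℕ) : ((n + 4).choose 4 : ℝ) =
    ((n : ℝ) + 1) * ((n : ℝ) + 2) * ((n : ℝ) + 3) * ((n : ℝ) + 4) / 24 := by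
  have h := Nat.ascFactorial_eq_factorial_mul_choose n 4
  have h1 : (n + 1).ascFactorial 4 = (n + 1) * (n + 2) * (n + 3) * (n + 4) := by
    simp [Nat.ascFactorial]
    ring
  rw [h1] at h
  have h2 := congrArg (Nat.cast : ℕ → ℝ) h
  simp only [Nat.factorial] at h2
  push_cast at h2
  linarith

theorem choose_le (n : ℕ) : ((n + 4).choose 4 : ℝ) ≤ 5 * ((n : ℝ) ^ 4 + 1) := by
  rw [choose_form]
  rcases n with _ | n
  · norm_num
  · have h : (0 : ℝ) ≤ n := Nat.cast_nonneg n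
    push_cast
    have a1 : ((n : ℝ) + 1 + 1) ≤ 2 * (n + 1) := by linarith
    have a2 : ((n : ℝ) + 1 + 2) ≤ 3 * (n + 1) := by linarith
    have a3 : ((n : ℝ) + 1 + 3) ≤ 4 * (n + 1) := by linarith
    have a4 : ((n : ℝ) + 1 + 4) ≤ 5 * (n + 1) := by linarith
    have b : ((n : ℝ) + 1 + 1) * ((n : ℝ) + 1 + 2) * ((n : ℝ) + 1 + 3) * ((n : ℝ) + 1 + 4) ≤
        (2 * (n + 1)) * (3 * (n + 1)) * (4 * (n + 1)) * (5 * (n + 1)) := by gcongr
    nlinarith [b]

theorem term_bound (n j : ℕ) (_hj : j ≤ n) :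
    ((n - j + 4).choose 4 : ℝ) ≤ 5 * ((n : ℝ) ^ 4 + 1) := by
  have h1 := choose_le (n - j)
  have h2 : ((n - j : ℕ) : ℝ) ≤ n := by exact_mod_cast Nat.sub_le n j
  have h3 : (0 : ℝ) ≤ ((n - j : ℕ) : ℝ) := Nat.cast_nonneg _
  have h4 : ((n - j : ℕ) : ℝ) ^ 4 ≤ (n : ℝ) ^ 4 := by gcongr
  linarith

theorem sum_abs (n : ℕ) : ∑ j ∈ Finset.range n, |(-5 : ℝ) ^ j / (j.factorial : ℝ)| ≤ Real.exp 5 := by
  have h : ∀ j ∈ Finset.range n, |(-5 : ℝ) ^ j / (j.factorial : ℝ)| = 5 ^ j / (j.factorial : ℝ) := by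
    intro j _
    rw [abs_div, abs_pow]
    simp
  rw [Finset.sum_congr rfl h]
  exact Real.sum_le_exp_of_nonneg (by norm_num) n

theorem qe_le (n : ℕ) : qe n ≤ (5 * Real.exp 5) * ((n : ℝ) ^ 4 + 1) := by
  have h0 : (0 : ℝ) ≤ (n : ℝ) ^ 4 + 1 := by positivity
  calc qe n ≤ |qe n| := le_abs_self _
    _ ≤ ∑ j ∈ Finset.range (n + 1), |(-5) ^ j / (j.factorial : ℝ) * ((n - j + 4).choose 4 : ℝ)| :=
        Finset.abs_sum_le_sum_abs _ _
    _ ≤ ∑ j ∈ Finset.range (n + 1), |(-5 : ℝ) ^ j / (j.factorial : ℝ)| * (5 * ((n : ℝ) ^ 4 + 1)) := by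
        apply Finset.sum_le_sum
        intro j hj
        simp only [Finset.mem_range] at hj
        rw [abs_mul]
        apply mul_le_mul_of_nonneg_left _ (abs_nonneg _)
        rw [abs_of_nonneg (by positivity)]
        exact term_bound n j (by omega)
    _ = (∑ j ∈ Finset.range (n + 1), |(-5 : ℝ) ^ j / (j.factorial : ℝ)|) * (5 * ((n : ℝ) ^ 4 + 1)) := by
        rw [Finset.sum_mul]
    _ ≤ Real.exp 5 * (5 * ((n : ℝ) ^ 4 + 1)) := by
        apply mul_le_mul_of_nonneg_right (sum_abs _) (by positivity)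
    _ = _ := by ring

theorem term_lim (j : ℕ) :
    Tendsto (fun n : ℕ => ((n - j + 4).choose 4 : ℝ) / (n : ℝ) ^ 4) atTop (𝓝 (1 / 24)) := by
  have hx : Tendsto (fun n : ℕ => 1 / (n : ℝ)) atTop (𝓝 0) := tendsto_one_div_atTop_nhds_zero_nat
  have h : Tendsto (fun n : ℕ => (1 - (j : ℝ) * (1 / (n : ℝ)) + 1 * (1 / (n : ℝ))) *
      (1 - (j : ℝ) * (1 / (n : ℝ)) + 2 * (1 / (n : ℝ))) *
      (1 - (j : ℝ) * (1 / (n : ℝ)) + 3 * (1 / (n : ℝ))) *
      (1 - (j : ℝ) * (1 / (n : ℝ)) + 4 * (1 / (n : ℝ))) / 24) atTop (𝓝 ((1 - (j : ℝ) * 0 + 1 * 0) *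
      (1 - (j : ℝ) * 0 + 2 * 0) * (1 - (j : ℝ) * 0 + 3 * 0) * (1 - (j : ℝ) * 0 + 4 * 0) / 24)) := by
    have h1 : ∀ a : ℝ, Tendsto (fun n : ℕ => (1 - (j : ℝ) * (1 / (n : ℝ)) + a * (1 / (n : ℝ)))) atTop
        (𝓝 (1 - (j : ℝ) * 0 + a * 0)) := fun a => ((hx.const_mul (j : ℝ)).const_sub 1).add (hx.const_mul a)
    exact ((((h1 1).mul (h1 2)).mul (h1 3)).mul (h1 4)).div_const 24
  have h0 : ((1 - (j : ℝ) * 0 + 1 * 0) *
      (1 - (j : ℝ) * 0 + 2 * 0) * (1 - (j : ℝ) * 0 + 3 * 0) * (1 - (j : ℝ) * 0 + 4 * 0) / 24) = 1 / 24 := by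
    ring
  rw [h0] at h
  apply h.congr'
  filter_upwards [eventually_ge_atTop (j + 1)] with n hn
  have hn0 : (n : ℝ) ≠ 0 := by
    have : 0 < n := by omega
    positivity
  rw [choose_form, Nat.cast_sub (by omega : j ≤ n)]
  field_simp

theorem qe_lim : Tendsto (fun n : ℕ => qe n / (n : ℝ) ^ 4) atTop (𝓝 (Real.exp (-5) / 24)) := by
  have hs : HasSum (fun j : ℕ => (-5 : ℝ) ^ j / (j.factorial : ℝ)) (Real.exp (-5)) := by
    rw [Real.exp_eq_exp_ℝ]
    exact NormedSpace.expSeries_div_hasSum_exp (-5 : ℝ)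
  have hs2 : ∑' j : ℕ, (-5 : ℝ) ^ j / (j.factorial : ℝ) * (1 / 24) = Real.exp (-5) / 24 := by
    rw [tsum_mul_right, hs.tsum_eq]; ring
  rw [← hs2]
  have heq : ∀ n : ℕ, qe n / (n : ℝ) ^ 4 = ∑' j : ℕ, (if j ≤ n then
      (-5 : ℝ) ^ j / (j.factorial : ℝ) * (((n - j + 4).choose 4 : ℝ) / (n : ℝ) ^ 4) else 0) := by
    intro n
    rw [tsum_eq_sum (s := Finset.range (n + 1))]
    · unfold qe
      rw [Finset.sum_div]
      apply Finset.sum_congr rfl
      intro j hj
      simp only [Finset.mem_range] at hj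
      rw [if_pos (by omega), mul_div_assoc]
    · intro j hj
      simp only [Finset.mem_range] at hj
      rw [if_neg (by omega)]
  simp_rw [heq]
  have hsum : Summable (fun j : ℕ => (5 : ℝ) ^ j / (j.factorial : ℝ) * 10) :=
    (Real.summable_pow_div_factorial 5).mul_right 10
  refine tendsto_tsum_of_dominated_convergence hsum ?_ ?_
  · intro j
    have := (term_lim j).const_mul ((-5 : ℝ) ^ j / (j.factorial : ℝ))
    apply this.congr'
    filter_upwards [eventually_ge_atTop j] with n hn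
    rw [if_pos hn]
  · filter_upwards [eventually_ge_atTop 1] with n hn j
    by_cases hj : j ≤ n
    · rw [if_pos hj, norm_mul, norm_div, norm_pow]
      have e1 : ‖(-5 : ℝ)‖ = 5 := by norm_num
      have e2 : ‖(j.factorial : ℝ)‖ = j.factorial := by simp
      rw [e1, e2]
      apply mul_le_mul_of_nonneg_left _ (by positivity)
      rw [Real.norm_of_nonneg (by positivity)]
      have h1 := term_bound n j hj
      have hn1 : (1 : ℝ) ≤ (n : ℝ) := by exact_mod_cast hn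
      have hn4 : (1 : ℝ) ≤ (n : ℝ) ^ 4 := one_le_pow₀ hn1
      rw [div_le_iff₀ (by positivity)]
      linarith
    · rw [if_neg hj, norm_zero]
      positivity

/-- LG task 17 -/
theorem QGROW (q : ℕ → ℝ) (hq : ∀ N, IsQ N tid q) :
    Tendsto (fun n : ℕ => q n / (n : ℝ) ^ 4) atTop (𝓝 (Real.exp (-5) / 24)) ∧
    ∃ C : ℝ, 0 < C ∧ ∀ n : ℕ, 0 ≤ q n ∧ q n ≤ C * ((n : ℝ) ^ 4 + 1) := by
  have h : ∀ n, q n = qe n := fun n => q_eq (hq n) n le_rfl
  refine ⟨?_, 5 * Real.exp 5, by positivity, ?_⟩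
  · simp_rw [h]; exact qe_lim
  · intro n
    rw [h]
    exact ⟨qe_nonneg n, qe_le n⟩

end LG
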